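import Mathlib
import Pool.Agent.MP_284f77_nt.Defs
import Pool.Agent.MP_284f77_nt.Proof

set_option autoImplicit false

open Nat

namespace Pool.Agent.Results.MP_284f77_nt.TwoAdicIntegrality

/-- Let `u : ℕ → ℤ` be the sequence with `u 0 = 1` and, for `n ≥ 1`,
`u n = ∏_{j ≤ n} (4j-1)² - ∑_{m < n} C(2n+1, 2m+1) (∏_{j ≤ n-m} (4j-3)²) u m`.
Then for every `n` the rational number `u n / (2n+1)!`, in lowest terms, has an odd denominator,
that is, it lies in `ℤ₂`. -/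
theorem result (u : ℕ → ℤ) (h0 : u 0 = 1)
    (hu : ∀ n : ℕ, 1 ≤ n → u n = (∏ j ∈ Finset.Icc 1 n, (4 * (j : ℤ) - 1) ^ 2) -
      ∑ m ∈ Finset.range n, ((2 * n + 1).choose (2 * m + 1) : ℤ) *
        (∏ j ∈ Finset.Icc 1 (n - m), (4 * (j : ℤ) - 3) ^ 2) * u m)
    (n : ℕ) : ¬ 2 ∣ ((u n : ℚ) / ((2 * n + 1)! : ℚ)).den :=
  Pool.Agent.MP_284f77_nt.main h0 hu n

end Pool.Agent.Results.MP_284f77_nt.TwoAdicIntegrality
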